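import Pool.Agent.W184.MV

/-! Fourth moments of Dirichlet polynomials. -/

set_option autoImplicit false

namespace Pool.Agent.Y429.SX

open Finset MeasureTheory
open Pool.Agent.W184 (DS mv_DS harm_le)

/-- coefficients of the square -/
noncomputable def bq (w : ℕ → ℝ) (M n : ℕ) : ℝ :=
  ∑ p ∈ (Icc 1 M ×ˢ Icc 1 M).filter (fun p => p.1 * p.2 = n), w p.1 * w p.2

lemma DS_sq (w : ℕ → ℝ) (M : ℕ) (s : ℂ) : DS w M s ^ 2 = DS (bq w M) (M ^ 2) s := by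
  unfold DS
  rw [sq, sum_mul_sum, ← sum_product']
  have h1 : ∀ p ∈ Icc 1 M ×ˢ Icc 1 M, p.1 * p.2 ∈ Icc 1 (M ^ 2) := by
    intro p hp
    rw [mem_product, mem_Icc, mem_Icc] at hp
    rw [mem_Icc]
    refine ⟨Nat.mul_pos hp.1.1 hp.2.1, ?_⟩
    rw [sq]
    exact Nat.mul_le_mul hp.1.2 hp.2.2
  rw [← sum_fiberwise_of_maps_to h1]
  refine sum_congr rfl fun n hn => ?_
  unfold bq
  rw [Complex.ofReal_sum, sum_mul]
  refine sum_congr rfl fun p hp => ?_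
  rw [mem_filter] at hp
  rw [← hp.2]
  push_cast
  rw [Complex.natCast_mul_natCast_cpow]
  ring

lemma bq_nonneg {w : ℕ → ℝ} (hw0 : ∀ n, 0 ≤ w n) (M n : ℕ) : 0 ≤ bq w M n :=
  sum_nonneg fun _ _ => mul_nonneg (hw0 _) (hw0 _)

lemma bq_le {w : ℕ → ℝ} (hw0 : ∀ n, 0 ≤ w n) (hw1 : ∀ n, w n ≤ 1) (M : ℕ) {n : ℕ} (hn : 1 ≤ n) :
    bq w M n ≤ n.divisors.card := by
  unfold bq
  calc ∑ p ∈ (Icc 1 M ×ˢ Icc 1 M).filter (fun p => p.1 * p.2 = n), w p.1 * w p.2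
      ≤ ∑ p ∈ (Icc 1 M ×ˢ Icc 1 M).filter (fun p => p.1 * p.2 = n), (1 : ℝ) :=
        sum_le_sum fun p _ => mul_le_one₀ (hw1 _) (hw0 _) (hw1 _)
    _ = (((Icc 1 M ×ˢ Icc 1 M).filter (fun p => p.1 * p.2 = n)).card : ℝ) := by simp
    _ ≤ n.divisors.card := by
      have : ((Icc 1 M ×ˢ Icc 1 M).filter (fun p => p.1 * p.2 = n)).card ≤ n.divisors.card := by
        refine card_le_card_of_injOn (fun p => p.1) ?_ ?_
        · intro p hp
          have hp' := mem_filter.1 hp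
          exact Nat.mem_divisors.2 ⟨⟨p.2, hp'.2.symm⟩, by omega⟩
        · intro p hp q hq h
          have hp' := mem_filter.1 hp
          have hq' := mem_filter.1 hq
          have h' : p.1 = q.1 := h
          have hpos : 0 < p.1 := (mem_Icc.1 (mem_product.1 hp'.1).1).1
          have h2 : p.1 * p.2 = p.1 * q.2 := by rw [hp'.2, h', hq'.2]
          exact Prod.ext h' (Nat.eq_of_mul_eq_mul_left hpos h2)
      exact_mod_cast this

lemma DS_cont (w : ℕ → ℝ) (M : ℕ) (σ : ℝ) :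
    Continuous fun t : ℝ => DS w M ((σ : ℂ) + t * Complex.I) := by
  unfold DS
  refine continuous_finsetSum _ fun n hn => ?_
  have hn0 : (n : ℂ) ≠ 0 := by
    have := (mem_Icc.1 hn).1
    exact_mod_cast (by omega : n ≠ 0)
  refine continuous_const.mul ?_
  refine Continuous.const_cpow ?_ (Or.inl hn0)
  fun_prop

/-- the fourth moment -/
lemma m4 {w : ℕ → ℝ} (hw0 : ∀ n, 0 ≤ w n) (hw1 : ∀ n, w n ≤ 1) (M : ℕ) {K : ℝ} (hK : 1 ≤ K)
    (hKd : ∀ n ∈ Icc 1 (M ^ 2), (n.divisors.card : ℝ) ≤ K) {T : ℝ} (hT : 0 ≤ T) :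
    ∫ t in (0 : ℝ)..T, ‖DS w M (((1 / 2 : ℝ) : ℂ) + t * Complex.I)‖ ^ 4 ≤
      K ^ 2 * ((T + 6 * (M : ℝ) ^ 2) * (1 + Real.log ((M : ℝ) ^ 2))) := by
  have hK0 : 0 < K := by linarith
  obtain ⟨g, hg⟩ : ∃ g : ℕ → ℝ, g = fun n => min (bq w M n / K) 1 := ⟨_, rfl⟩
  have hg0 : ∀ n, 0 ≤ g n := fun n => by
    rw [hg]
    exact le_min (div_nonneg (bq_nonneg hw0 M n) hK0.le) zero_le_one
  have hg1 : ∀ n, g n ≤ 1 := fun n => by
    rw [hg]
    exact min_le_right _ _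
  have hgn : ∀ n ∈ Icc 1 (M ^ 2), bq w M n = K * g n := by
    intro n hn
    have h1 : bq w M n / K ≤ 1 := by
      rw [div_le_one hK0]
      exact (bq_le hw0 hw1 M (mem_Icc.1 hn).1).trans (hKd n hn)
    rw [hg]
    simp only
    rw [min_eq_left h1]
    field_simp
  have h1 : ∀ t : ℝ, ‖DS w M (((1 / 2 : ℝ) : ℂ) + t * Complex.I)‖ ^ 4 =
      K ^ 2 * ‖DS g (M ^ 2) (((1 / 2 : ℝ) : ℂ) + t * Complex.I)‖ ^ 2 := by
    intro t
    have h2 : DS (bq w M) (M ^ 2) (((1 / 2 : ℝ) : ℂ) + t * Complex.I) =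
        (K : ℂ) * DS g (M ^ 2) (((1 / 2 : ℝ) : ℂ) + t * Complex.I) := by
      unfold DS
      rw [mul_sum]
      refine sum_congr rfl fun n hn => ?_
      rw [hgn n hn]
      push_cast
      ring
    have h3 : ‖DS w M (((1 / 2 : ℝ) : ℂ) + t * Complex.I)‖ ^ 4 =
        ‖DS w M (((1 / 2 : ℝ) : ℂ) + t * Complex.I) ^ 2‖ ^ 2 := by
      rw [norm_pow, ← pow_mul]
    rw [h3, DS_sq, h2, norm_mul, mul_pow, Complex.norm_real, Real.norm_of_nonneg hK0.le]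
  simp_rw [h1]
  rw [intervalIntegral.integral_const_mul]
  refine mul_le_mul_of_nonneg_left ?_ (by positivity)
  have h4 := mv_DS hg0 hg1 (le_refl (1 / 2 : ℝ)) (M ^ 2) 0 T
  have h5 := (abs_le.1 h4).2
  have hh := harm_le (M ^ 2)
  have h6 : ∑ n ∈ Icc 1 (M ^ 2), g n ^ 2 * (n : ℝ) ^ (-(2 * (1 / 2 : ℝ))) ≤
      1 + Real.log ((M ^ 2 : ℕ) : ℝ) := by
    refine le_trans (sum_le_sum fun n hn => ?_) hh
    have e1 : (n : ℝ) ^ (-(2 * (1 / 2 : ℝ))) = 1 / n := by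
      rw [show -(2 * (1 / 2 : ℝ)) = -1 by norm_num, Real.rpow_neg_one, one_div]
    rw [e1]
    have e2 : g n ^ 2 ≤ 1 := pow_le_one₀ (hg0 n) (hg1 n)
    calc g n ^ 2 * (1 / n) ≤ 1 * (1 / n) := mul_le_mul_of_nonneg_right e2 (by positivity)
      _ = 1 / n := one_mul _
  rw [sub_zero] at h5
  rw [Nat.cast_pow] at h5 h6
  have h7 := mul_le_mul_of_nonneg_left h6 hT
  have h8 : (T + 6 * (M : ℝ) ^ 2) * (1 + Real.log ((M : ℝ) ^ 2)) =
      T * (1 + Real.log ((M : ℝ) ^ 2)) + 6 * (M : ℝ) ^ 2 * (1 + Real.log ((M : ℝ) ^ 2)) := by ring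
  rw [h8]
  linarith

lemma sum_inv_sqrt (M : ℕ) : ∑ m ∈ Icc 1 M, 1 / √(m : ℝ) ≤ 2 * √(M : ℝ) := by
  induction M with
  | zero => simp
  | succ M ih =>
    rw [sum_Icc_succ_top (by omega)]
    have h1 : 1 / √((M + 1 : ℕ) : ℝ) ≤ 2 * (√((M + 1 : ℕ) : ℝ) - √(M : ℝ)) := by
      have h2 : 0 < √((M + 1 : ℕ) : ℝ) := Real.sqrt_pos.2 (by positivity)
      rw [div_le_iff₀ h2]
      have h3 : √((M + 1 : ℕ) : ℝ) ^ 2 = (M : ℝ) + 1 := by
        rw [Real.sq_sqrt (by positivity)]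
        push_cast
        ring
      have h4 : √(M : ℝ) ^ 2 = (M : ℝ) := Real.sq_sqrt (by positivity)
      nlinarith [sq_nonneg (√((M + 1 : ℕ) : ℝ) - √(M : ℝ))]
    linarith

lemma DS_sup {w : ℕ → ℝ} (hw0 : ∀ n, 0 ≤ w n) (hw1 : ∀ n, w n ≤ 1) (M : ℕ) (t : ℝ) :
    ‖DS w M (((1 / 2 : ℝ) : ℂ) + t * Complex.I)‖ ≤ 2 * √(M : ℝ) := by
  refine le_trans ?_ (sum_inv_sqrt M)
  unfold DS
  refine norm_sum_le_of_le _ fun n hn => ?_
  have hn0 : (0 : ℝ) < n := by exact_mod_cast (mem_Icc.1 hn).1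
  rw [norm_mul, Complex.norm_real, Real.norm_of_nonneg (hw0 n),
    Complex.norm_natCast_cpow_of_pos (mem_Icc.1 hn).1]
  have h1 : (-(((1 / 2 : ℝ) : ℂ) + t * Complex.I)).re = -(1 / 2) := by simp
  rw [h1, Real.rpow_neg hn0.le, ← Real.sqrt_eq_rpow, one_div]
  calc w n * (√(n : ℝ))⁻¹ ≤ 1 * (√(n : ℝ))⁻¹ :=
        mul_le_mul_of_nonneg_right (hw1 n) (by positivity)
    _ = _ := one_mul _

/-- the eighth moment -/
lemma m8 {w : ℕ → ℝ} (hw0 : ∀ n, 0 ≤ w n) (hw1 : ∀ n, w n ≤ 1) (M : ℕ) {K : ℝ} (hK : 1 ≤ K)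
    (hKd : ∀ n ∈ Icc 1 (M ^ 2), (n.divisors.card : ℝ) ≤ K) {T : ℝ} (hT : 0 ≤ T) :
    ∫ t in (0 : ℝ)..T, ‖DS w M (((1 / 2 : ℝ) : ℂ) + t * Complex.I)‖ ^ 8 ≤
      16 * (M : ℝ) ^ 2 * (K ^ 2 * ((T + 6 * (M : ℝ) ^ 2) * (1 + Real.log ((M : ℝ) ^ 2)))) := by
  have hc := (DS_cont w M (1 / 2)).norm
  have h1 : ∀ t ∈ Set.Icc 0 T, ‖DS w M (((1 / 2 : ℝ) : ℂ) + t * Complex.I)‖ ^ 8 ≤
      16 * (M : ℝ) ^ 2 * ‖DS w M (((1 / 2 : ℝ) : ℂ) + t * Complex.I)‖ ^ 4 := by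
    intro t _
    have h2 := pow_le_pow_left₀ (norm_nonneg _) (DS_sup hw0 hw1 M t) 4
    have h3 : (2 * √(M : ℝ)) ^ 4 = 16 * (M : ℝ) ^ 2 := by
      have h4 : √(M : ℝ) ^ 2 = (M : ℝ) := Real.sq_sqrt (by positivity)
      calc (2 * √(M : ℝ)) ^ 4 = 16 * (√(M : ℝ) ^ 2) ^ 2 := by ring
        _ = _ := by rw [h4]
    rw [h3] at h2
    calc ‖DS w M (((1 / 2 : ℝ) : ℂ) + t * Complex.I)‖ ^ 8 =
        ‖DS w M (((1 / 2 : ℝ) : ℂ) + t * Complex.I)‖ ^ 4 *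
          ‖DS w M (((1 / 2 : ℝ) : ℂ) + t * Complex.I)‖ ^ 4 := by ring
      _ ≤ _ := mul_le_mul_of_nonneg_right h2 (by positivity)
  calc ∫ t in (0 : ℝ)..T, ‖DS w M (((1 / 2 : ℝ) : ℂ) + t * Complex.I)‖ ^ 8
      ≤ ∫ t in (0 : ℝ)..T, 16 * (M : ℝ) ^ 2 *
        ‖DS w M (((1 / 2 : ℝ) : ℂ) + t * Complex.I)‖ ^ 4 :=
        intervalIntegral.integral_mono_on hT ((hc.pow 8).intervalIntegrable _ _)
          ((continuous_const.mul (hc.pow 4)).intervalIntegrable _ _) h1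
    _ = 16 * (M : ℝ) ^ 2 * ∫ t in (0 : ℝ)..T, ‖DS w M (((1 / 2 : ℝ) : ℂ) + t * Complex.I)‖ ^ 4 :=
        intervalIntegral.integral_const_mul _ _
    _ ≤ _ := mul_le_mul_of_nonneg_left (m4 hw0 hw1 M hK hKd hT) (by positivity)

/-! ### The divisor bound (copied from `Pool.Agent.H358R2.Asym`) -/

theorem aux_pow (K e : ℕ) (hK : 0 < K) : (e + 1) ^ K ≤ K ^ K * 2 * 2 ^ e := by
  have h1 : e + 1 < K * ((e + 1) / K + 1) := by
    have := Nat.lt_mul_div_succ (e + 1) hK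
    simpa using this
  have h2 : (e + 1) / K + 1 ≤ 2 ^ ((e + 1) / K) := Nat.lt_two_pow_self
  have h3 : e + 1 ≤ K * 2 ^ ((e + 1) / K) := by
    calc e + 1 ≤ K * ((e + 1) / K + 1) := h1.le
      _ ≤ K * 2 ^ ((e + 1) / K) := Nat.mul_le_mul_left _ h2
  calc (e + 1) ^ K ≤ (K * 2 ^ ((e + 1) / K)) ^ K := Nat.pow_le_pow_left h3 K
    _ = K ^ K * 2 ^ ((e + 1) / K * K) := by rw [mul_pow, ← pow_mul]
    _ ≤ K ^ K * 2 ^ (e + 1) := by
        apply Nat.mul_le_mul_left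
        exact Nat.pow_le_pow_right (by norm_num) (Nat.div_mul_le_self _ _)
    _ = K ^ K * 2 * 2 ^ e := by rw [pow_succ]; ring

/-- `d(n) ^ K ≤ C_K n` -/
theorem card_divisors_pow_le (K : ℕ) (hK : 0 < K) (n : ℕ) (hn : n ≠ 0) :
    (n.divisors.card) ^ K ≤ (K ^ K * 2) ^ (2 ^ K) * n := by
  rw [Nat.card_divisors hn]
  set c : ℕ → ℕ := fun q => if q < 2 ^ K then K ^ K * 2 else 1 with hc
  have hc0 : 1 ≤ K ^ K * 2 := by
    have : 0 < K ^ K := Nat.pow_pos hK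
    omega
  have key : ∀ q ∈ n.primeFactors, (n.factorization q + 1) ^ K ≤ c q * q ^ n.factorization q := by
    intro q hq
    have hqp : q.Prime := Nat.prime_of_mem_primeFactors hq
    by_cases h : q < 2 ^ K
    · simp only [hc, h, if_true]
      refine (aux_pow K _ hK).trans ?_
      exact Nat.mul_le_mul_left _ (Nat.pow_le_pow_left hqp.two_le _)
    · simp only [hc, h, if_false, one_mul]
      push Not at h
      calc (n.factorization q + 1) ^ K ≤ (2 ^ n.factorization q) ^ K :=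
            Nat.pow_le_pow_left Nat.lt_two_pow_self K
        _ = (2 ^ K) ^ n.factorization q := by rw [← pow_mul, ← pow_mul, mul_comm]
        _ ≤ q ^ n.factorization q := Nat.pow_le_pow_left h _
  calc (∏ q ∈ n.primeFactors, (n.factorization q + 1)) ^ K
      = ∏ q ∈ n.primeFactors, (n.factorization q + 1) ^ K := by rw [Finset.prod_pow]
    _ ≤ ∏ q ∈ n.primeFactors, (c q * q ^ n.factorization q) :=
        Finset.prod_le_prod' key
    _ = (∏ q ∈ n.primeFactors, c q) * ∏ q ∈ n.primeFactors, q ^ n.factorization q :=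
        Finset.prod_mul_distrib
    _ = (∏ q ∈ n.primeFactors, c q) * n := by
        congr 1
        exact Nat.prod_factorization_pow_eq_self hn
    _ ≤ (K ^ K * 2) ^ (2 ^ K) * n := by
        apply Nat.mul_le_mul_right
        have : ∏ q ∈ n.primeFactors, c q
            = ∏ q ∈ n.primeFactors.filter (fun q => q < 2 ^ K), (K ^ K * 2) := by
          rw [Finset.prod_filter]
        rw [this, Finset.prod_const]
        apply Nat.pow_le_pow_right hc0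
        calc (n.primeFactors.filter (fun q => q < 2 ^ K)).card ≤ (Finset.range (2 ^ K)).card := by
              apply Finset.card_le_card
              intro q hq
              simp only [Finset.mem_filter] at hq
              exact Finset.mem_range.mpr hq.2
          _ = 2 ^ K := Finset.card_range _

/-- the divisor bound -/
theorem div_bound {δ : ℝ} (hδ : 0 < δ) : ∃ C : ℝ, 1 ≤ C ∧ ∀ n : ℕ, n ≠ 0 →
    (n.divisors.card : ℝ) ≤ C * (n : ℝ) ^ δ := by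
  obtain ⟨K0, hK0⟩ := exists_nat_gt (1 / δ)
  set K := K0 + 1 with hKdef
  have hK : 0 < K := by omega
  have hK' : (0 : ℝ) < K := by exact_mod_cast hK
  have hKδ : 1 / (K : ℝ) ≤ δ := by
    rw [div_le_iff₀ hK']
    rw [div_lt_iff₀ hδ] at hK0
    have : (K0 : ℝ) ≤ K := by exact_mod_cast (by omega : K0 ≤ K)
    nlinarith
  set c : ℕ := (K ^ K * 2) ^ (2 ^ K) with hc
  have hc1 : 1 ≤ c := by
    rw [hc]
    exact Nat.one_le_pow _ _ (by positivity)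
  have hc1' : (1 : ℝ) ≤ c := by exact_mod_cast hc1
  refine ⟨c, hc1', ?_⟩
  intro n hn
  have hn1 : 1 ≤ n := Nat.one_le_iff_ne_zero.2 hn
  have hn1' : (1 : ℝ) ≤ n := by exact_mod_cast hn1
  have h1 : ((n.divisors.card : ℝ)) ^ K ≤ c * n := by
    exact_mod_cast card_divisors_pow_le K hK n hn
  have h2 : (n.divisors.card : ℝ) ≤ (c * n : ℝ) ^ (1 / (K : ℝ)) := by
    have h3 := Real.rpow_le_rpow (by positivity) h1 (by positivity : (0 : ℝ) ≤ 1 / (K : ℝ))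
    rwa [← Real.rpow_natCast, ← Real.rpow_mul (Nat.cast_nonneg _), mul_one_div_cancel hK'.ne',
      Real.rpow_one] at h3
  refine h2.trans ?_
  rw [Real.mul_rpow (by positivity) (by positivity)]
  apply mul_le_mul
  · calc (c : ℝ) ^ (1 / (K : ℝ)) ≤ (c : ℝ) ^ (1 : ℝ) := by
          apply Real.rpow_le_rpow_of_exponent_le hc1'
          rw [div_le_one hK']
          exact_mod_cast hK
      _ = c := Real.rpow_one _
  · exact Real.rpow_le_rpow_of_exponent_le hn1' hKδ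
  · positivity
  · positivity

end Pool.Agent.Y429.SX
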