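import Pool.Agent.Y969.SM.Stm
import Pool.Agent.Y429.SX.DP
import Pool.Agent.H448R2.GC.K1
import Pool.Agent.H306R2.ZetaGrowth

/-! Crude bounds of the model of `|ζ|^4`. -/

set_option autoImplicit false

namespace Pool.Agent.Y429.SX

open Finset Filter Topology MeasureTheory Complex
open Pool.Agent.Y969.SM
open Pool.Agent.H306R2.SM (cl)
open Pool.Agent.W184 (DS)
open Pool.Agent.H448R2.GC (cs cu)

lemma cs_eq (k : ℕ) (c D t : ℝ) : cs k c D (cl t) =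
    DS (fun m => cu k c (Real.log m - D)) ⌊Real.exp (D + k * c)⌋₊
      (((1 / 2 : ℝ) : ℂ) + t * Complex.I) := by
  have h : cl t = ((1 / 2 : ℝ) : ℂ) + t * Complex.I := by
    unfold cl
    push_cast
    ring
  rw [h]
  rfl

lemma cl_ne (t : ℝ) : cl t ≠ 1 := by
  intro h
  have := congrArg Complex.re h
  simp [cl] at this

lemma zeta_cont : Continuous fun t : ℝ => riemannZeta (cl t) := by
  rw [continuous_iff_continuousAt]
  intro t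
  have h1 : ContinuousAt riemannZeta (cl t) := (differentiableAt_riemannZeta (cl_ne t)).continuousAt
  have h2 : Continuous cl := by
    unfold cl
    fun_prop
  exact ContinuousAt.comp (f := cl) (g := riemannZeta) h1 h2.continuousAt

lemma zeta_bd (t : ℝ) (ht : 0 ≤ t) : ‖riemannZeta (cl t)‖ ≤ 24 * (1 + t) ^ 2 := by
  have h := Pool.Agent.H306R2.zeta_norm_le (s := cl t) (by simp [cl]) (by
    have h1 : |(cl t - 1).re| ≤ ‖cl t - 1‖ := Complex.abs_re_le_norm _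
    have h2 : |(cl t - 1).re| = 1 / 2 := by
      simp only [cl, Complex.sub_re, Complex.add_re, Complex.mul_re, Complex.ofReal_re,
        Complex.I_re, mul_zero, Complex.ofReal_im, Complex.I_im, mul_one, sub_self, add_zero,
        Complex.one_re]
      norm_num
    linarith)
  have h3 : ‖cl t‖ ≤ 1 / 2 + t := by
    unfold cl
    refine (norm_add_le _ _).trans ?_
    rw [norm_mul, Complex.norm_real, Complex.norm_I, mul_one, Real.norm_of_nonneg ht]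
    norm_num
  refine h.trans ?_
  have h4 : (‖cl t‖ + 1) ^ 2 ≤ (2 * (1 + t)) ^ 2 := by
    apply pow_le_pow_left₀ (by positivity)
    linarith
  nlinarith

/-- the algebra of the model -/
lemma model_le (z a b : ℂ) : |2 * ((starRingEnd ℂ) z ^ 2 * a ^ 2).re +
    ‖z‖ ^ 2 * (2 * ‖b‖ ^ 2 - ‖b - a‖ ^ 2)| ≤ 4 * ‖z‖ ^ 2 * (‖a‖ ^ 2 + ‖b‖ ^ 2) := by
  have h1 : |((starRingEnd ℂ) z ^ 2 * a ^ 2).re| ≤ ‖z‖ ^ 2 * ‖a‖ ^ 2 := by
    refine (Complex.abs_re_le_norm _).trans (le_of_eq ?_)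
    rw [norm_mul, norm_pow, norm_pow, RCLike.norm_conj]
  have h2 : ‖b - a‖ ^ 2 ≤ 2 * ‖a‖ ^ 2 + 2 * ‖b‖ ^ 2 := by
    have h3 := norm_sub_le b a
    have h4 := pow_le_pow_left₀ (norm_nonneg _) h3 2
    nlinarith [sq_nonneg (‖b‖ - ‖a‖)]
  have h0 : 0 ≤ ‖b - a‖ ^ 2 := sq_nonneg _
  have hz : 0 ≤ ‖z‖ ^ 2 := sq_nonneg _
  have ha : 0 ≤ ‖a‖ ^ 2 := sq_nonneg _
  have hb : 0 ≤ ‖b‖ ^ 2 := sq_nonneg _
  have h5 : |‖z‖ ^ 2 * (2 * ‖b‖ ^ 2 - ‖b - a‖ ^ 2)| ≤ ‖z‖ ^ 2 * (2 * ‖a‖ ^ 2 + 2 * ‖b‖ ^ 2) := by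
    rw [abs_mul, abs_of_nonneg hz]
    refine mul_le_mul_of_nonneg_left ?_ hz
    rw [abs_le]
    constructor <;> linarith
  have h6 : |2 * ((starRingEnd ℂ) z ^ 2 * a ^ 2).re| ≤ 2 * (‖z‖ ^ 2 * ‖a‖ ^ 2) := by
    rw [abs_mul, abs_of_pos (by norm_num : (0 : ℝ) < 2)]
    linarith
  refine (abs_add_le _ _).trans ?_
  have h7 : 0 ≤ ‖z‖ ^ 2 * ‖b‖ ^ 2 := mul_nonneg hz hb
  nlinarith

/-- the square of the model, with a parameter -/
lemma model_sq {lm : ℝ} (hlm : 0 < lm) (z a b : ℂ) {F : ℝ}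
    (hF : |F| ≤ 4 * ‖z‖ ^ 2 * (‖a‖ ^ 2 + ‖b‖ ^ 2)) :
    F ^ 2 ≤ 32 * lm * ‖z‖ ^ 8 + 16 * lm⁻¹ * (‖a‖ ^ 8 + ‖b‖ ^ 8) := by
  have h1 : F ^ 2 ≤ (4 * ‖z‖ ^ 2 * (‖a‖ ^ 2 + ‖b‖ ^ 2)) ^ 2 := by
    rw [← sq_abs]
    exact pow_le_pow_left₀ (abs_nonneg _) hF 2
  have key : ∀ x y : ℝ, x ^ 4 * y ^ 4 ≤ (lm * x ^ 8 + lm⁻¹ * y ^ 8) / 2 := by
    intro x y
    have h2 : 0 ≤ lm⁻¹ * (lm * x ^ 4 - y ^ 4) ^ 2 := by positivity
    have h3 : lm⁻¹ * (lm * x ^ 4 - y ^ 4) ^ 2 = lm * x ^ 8 - 2 * (x ^ 4 * y ^ 4) + lm⁻¹ * y ^ 8 := by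
      field_simp
      ring
    linarith
  have h4 : (4 * ‖z‖ ^ 2 * (‖a‖ ^ 2 + ‖b‖ ^ 2)) ^ 2 ≤
      32 * (‖z‖ ^ 4 * ‖a‖ ^ 4) + 32 * (‖z‖ ^ 4 * ‖b‖ ^ 4) := by
    have h5 : 0 ≤ 16 * ‖z‖ ^ 4 * (‖a‖ ^ 2 - ‖b‖ ^ 2) ^ 2 := by positivity
    have h6 : 32 * (‖z‖ ^ 4 * ‖a‖ ^ 4) + 32 * (‖z‖ ^ 4 * ‖b‖ ^ 4) -
        (4 * ‖z‖ ^ 2 * (‖a‖ ^ 2 + ‖b‖ ^ 2)) ^ 2 = 16 * ‖z‖ ^ 4 * (‖a‖ ^ 2 - ‖b‖ ^ 2) ^ 2 := by
      ring
    linarith
  have e1 := key ‖z‖ ‖a‖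
  have e2 := key ‖z‖ ‖b‖
  linarith

/-- data of the smoothed sums -/
lemma coef (k : ℕ) {c D T : ℝ} (hc : 0 < c) (hT : 1 ≤ T)
    (hD : D + ((k + 1 : ℕ) : ℝ) * c ≤ 51 / 100 * Real.log T) :
    ∃ (w : ℕ → ℝ) (M : ℕ), (∀ n, 0 ≤ w n) ∧ (∀ n, w n ≤ 1) ∧ (M : ℝ) ≤ T ^ (51 / 100 : ℝ) ∧
      ∀ t : ℝ, cs (k + 1) c D (cl t) = DS w M (((1 / 2 : ℝ) : ℂ) + t * Complex.I) := by
  refine ⟨fun m => cu (k + 1) c (Real.log m - D), ⌊Real.exp (D + ((k + 1 : ℕ) : ℝ) * c)⌋₊,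
    fun n => Pool.Agent.H448R2.GC.cu_nonneg _ _ _ hc,
    fun n => Pool.Agent.H448R2.GC.cu_le_one _ _ _ hc, ?_, fun t => cs_eq _ _ _ _⟩
  refine (Nat.floor_le (Real.exp_pos _).le).trans ?_
  rw [Real.rpow_def_of_pos (by linarith), mul_comm (Real.log T)]
  exact Real.exp_le_exp.2 hD

/-- the eighth moment of the smoothed sums -/
lemma eighth {C T : ℝ} (hC : 1 ≤ C)
    (hd : ∀ n : ℕ, n ≠ 0 → (n.divisors.card : ℝ) ≤ C * (n : ℝ) ^ (1 / 1000 : ℝ)) (hT : 1 ≤ T)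
    (hlog : 1 + 2 * Real.log T ≤ T ^ (1 / 100 : ℝ)) {w : ℕ → ℝ} {M : ℕ} (hw0 : ∀ n, 0 ≤ w n)
    (hw1 : ∀ n, w n ≤ 1) (hM : (M : ℝ) ≤ T ^ (51 / 100 : ℝ)) :
    ∫ t in (0 : ℝ)..(8 * T), ‖DS w M (((1 / 2 : ℝ) : ℂ) + t * Complex.I)‖ ^ 8 ≤
      224 * C ^ 2 * T ^ (2054 / 1000 : ℝ) := by
  have hT0 : 0 < T := by linarith
  have hM2 : (M : ℝ) ^ 2 ≤ T ^ (102 / 100 : ℝ) := by
    have h1 := pow_le_pow_left₀ (Nat.cast_nonneg M) hM 2
    refine h1.trans (le_of_eq ?_)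
    rw [← Real.rpow_natCast, ← Real.rpow_mul hT0.le]
    norm_num
  have hT2 : (1 : ℝ) ≤ T ^ (2 / 1000 : ℝ) := Real.one_le_rpow hT (by norm_num)
  have hK : 1 ≤ C * T ^ (2 / 1000 : ℝ) := one_le_mul_of_one_le_of_one_le hC hT2
  have hKd : ∀ n ∈ Finset.Icc 1 (M ^ 2), (n.divisors.card : ℝ) ≤ C * T ^ (2 / 1000 : ℝ) := by
    intro n hn
    rw [Finset.mem_Icc] at hn
    refine (hd n (by omega)).trans (mul_le_mul_of_nonneg_left ?_ (by linarith))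
    have h1 : (n : ℝ) ≤ T ^ (102 / 100 : ℝ) := by
      have : (n : ℝ) ≤ (M : ℝ) ^ 2 := by exact_mod_cast hn.2
      linarith
    calc (n : ℝ) ^ (1 / 1000 : ℝ) ≤ (T ^ (102 / 100 : ℝ)) ^ (1 / 1000 : ℝ) :=
          Real.rpow_le_rpow (Nat.cast_nonneg n) h1 (by norm_num)
      _ = T ^ (102 / 100 * (1 / 1000) : ℝ) := by rw [← Real.rpow_mul hT0.le]
      _ ≤ T ^ (2 / 1000 : ℝ) := Real.rpow_le_rpow_of_exponent_le hT (by norm_num)
  refine (m8 hw0 hw1 M hK hKd (by linarith : (0 : ℝ) ≤ 8 * T)).trans ?_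
  have hlM : Real.log ((M : ℝ) ^ 2) ≤ 2 * Real.log T := by
    rcases Nat.eq_zero_or_pos M with h | h
    · rw [h]
      simp only [Nat.cast_zero, ne_eq, OfNat.ofNat_ne_zero, not_false_eq_true, zero_pow,
        Real.log_zero]
      have := Real.log_nonneg hT
      linarith
    · have h1 : (0 : ℝ) < (M : ℝ) ^ 2 := by positivity
      have h2 : (M : ℝ) ^ 2 ≤ T ^ (2 : ℝ) :=
        hM2.trans (Real.rpow_le_rpow_of_exponent_le hT (by norm_num))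
      have h3 := Real.log_le_log h1 h2
      rwa [Real.log_rpow hT0] at h3
  have h8 : 8 * T + 6 * (M : ℝ) ^ 2 ≤ 14 * T ^ (102 / 100 : ℝ) := by
    have h1 : T ≤ T ^ (102 / 100 : ℝ) := by
      calc T = T ^ (1 : ℝ) := (Real.rpow_one T).symm
        _ ≤ _ := Real.rpow_le_rpow_of_exponent_le hT (by norm_num)
    linarith
  have h9 : 1 + Real.log ((M : ℝ) ^ 2) ≤ T ^ (1 / 100 : ℝ) := by linarith
  have h10 : 0 ≤ Real.log ((M : ℝ) ^ 2) := by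
    rcases Nat.eq_zero_or_pos M with h | h
    · rw [h]
      simp
    · refine Real.log_nonneg ?_
      have : (1 : ℝ) ≤ M := by exact_mod_cast h
      exact one_le_pow₀ this
  calc 16 * (M : ℝ) ^ 2 * ((C * T ^ (2 / 1000 : ℝ)) ^ 2 *
        ((8 * T + 6 * (M : ℝ) ^ 2) * (1 + Real.log ((M : ℝ) ^ 2))))
      ≤ 16 * T ^ (102 / 100 : ℝ) * ((C * T ^ (2 / 1000 : ℝ)) ^ 2 *
        (14 * T ^ (102 / 100 : ℝ) * T ^ (1 / 100 : ℝ))) := by
        gcongr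
    _ = 224 * C ^ 2 * (T ^ (102 / 100 : ℝ) * (T ^ (2 / 1000 : ℝ) * T ^ (2 / 1000 : ℝ)) *
        (T ^ (102 / 100 : ℝ) * T ^ (1 / 100 : ℝ))) := by ring
    _ = 224 * C ^ 2 * T ^ (2054 / 1000 : ℝ) := by
        rw [← Real.rpow_add hT0, ← Real.rpow_add hT0, ← Real.rpow_add hT0, ← Real.rpow_add hT0]
        norm_num

theorem t_FB (h : S_F8) (k : ℕ) (_hk : 2 ≤ k) : S_FB k := by
  obtain ⟨C8, hC8, h8⟩ := h (1 / 100) (by norm_num)
  obtain ⟨C, hC, hd⟩ := div_bound (δ := 1 / 1000) (by norm_num)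
  have ev1 : ∀ᶠ T : ℝ in atTop, 1 + 2 * Real.log T ≤ T ^ (1 / 100 : ℝ) := by
    have h1 := isLittleO_log_rpow_atTop (by norm_num : (0 : ℝ) < 1 / 100)
    have h2 := h1.def (by norm_num : (0 : ℝ) < 1 / 4)
    have h3 := (tendsto_rpow_atTop (by norm_num : (0 : ℝ) < 1 / 100)).eventually_ge_atTop 2
    filter_upwards [h2, h3, eventually_ge_atTop 1] with T h4 h5 h6
    rw [Real.norm_of_nonneg (Real.log_nonneg h6), Real.norm_of_nonneg (by positivity)] at h4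
    linarith
  have ev2 : ∀ᶠ T : ℝ in atTop, 4096 * C8 ≤ T ^ (2 / 100 : ℝ) :=
    (tendsto_rpow_atTop (by norm_num)).eventually_ge_atTop _
  have ev3 : ∀ᶠ T : ℝ in atTop, 14336 * C ^ 2 ≤ T ^ (2 / 100 : ℝ) :=
    (tendsto_rpow_atTop (by norm_num)).eventually_ge_atTop _
  filter_upwards [ev1, ev2, ev3, eventually_ge_atTop 18432] with T e1 e2 e3 hT
  have hT1 : 1 ≤ T := by linarith
  have hT0 : 0 < T := by linarith
  have hL : 0 < Real.log T := Real.log_pos (by linarith)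
  have hc : 0 < 1 / 200 * Real.log T / ((k : ℝ) + 1) := by positivity
  have hkc : ((k + 1 : ℕ) : ℝ) * (1 / 200 * Real.log T / ((k : ℝ) + 1)) = Real.log T / 200 := by
    push_cast
    field_simp
  obtain ⟨w1, M1, p0, p1, pM, pe⟩ := coef k (D := (1 / 2 - 2 * (1 / 200)) * Real.log T) hc hT1
    (by rw [hkc]; linarith)
  obtain ⟨w2, M2, q0, q1, qM, qe⟩ := coef k (D := Real.log (T / (2 * Real.pi)) -
    (1 / 2 - 2 * (1 / 200)) * Real.log T - 1 / 200 * Real.log T) hc hT1 (by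
      rw [hkc, Real.log_div hT0.ne' (by positivity)]
      have : 0 ≤ Real.log (2 * Real.pi) := Real.log_nonneg (by linarith [Real.pi_gt_three])
      linarith)
  have ha1 : ∀ t, a1 k T t = DS w1 M1 (((1 / 2 : ℝ) : ℂ) + t * Complex.I) := fun t => pe t
  have ha2 : ∀ t, a2 k T t = DS w2 M2 (((1 / 2 : ℝ) : ℂ) + t * Complex.I) := fun t => qe t
  have c1 : Continuous (a1 k T) := by
    have : a1 k T = fun t : ℝ => DS w1 M1 (((1 / 2 : ℝ) : ℂ) + t * Complex.I) := funext ha1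
    rw [this]
    exact DS_cont w1 M1 (1 / 2)
  have c2 : Continuous (a2 k T) := by
    have : a2 k T = fun t : ℝ => DS w2 M2 (((1 / 2 : ℝ) : ℂ) + t * Complex.I) := funext ha2
    rw [this]
    exact DS_cont w2 M2 (1 / 2)
  have cz := zeta_cont
  have cF : Continuous (F0 k T) := by
    unfold F0
    have cc : Continuous fun t : ℝ => (starRingEnd ℂ) (riemannZeta (cl t)) :=
      Complex.continuous_conj.comp cz
    exact (continuous_const.mul (Complex.continuous_re.comp ((cc.pow 2).mul (c1.pow 2)))).add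
      ((cz.norm.pow 2).mul ((continuous_const.mul (c2.norm.pow 2)).sub ((c2.sub c1).norm.pow 2)))
  have bF : ∀ t, |F0 k T t| ≤
      4 * ‖riemannZeta (cl t)‖ ^ 2 * (‖a1 k T t‖ ^ 2 + ‖a2 k T t‖ ^ 2) :=
    fun t => model_le _ _ _
  refine ⟨cF, ?_, ?_⟩
  · -- mean square
    have hlm : 0 < T ^ (1 / 5 : ℝ) := by positivity
    have i1 := eighth hC hd hT1 e1 p0 p1 pM
    have i2 := eighth hC hd hT1 e1 q0 q1 qM
    simp_rw [← ha1] at i1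
    simp_rw [← ha2] at i2
    have i3 := h8 (8 * T) (by linarith)
    have i4 : ∫ t in (0 : ℝ)..(8 * T), ‖riemannZeta (cl t)‖ ^ 8 ≤
        C8 * (64 * T ^ (168 / 100 : ℝ)) := by
      refine i3.trans (mul_le_mul_of_nonneg_left ?_ hC8.le)
      rw [Real.mul_rpow (by norm_num) hT0.le]
      have j1 : (8 : ℝ) ^ (5 / 3 + 1 / 100 : ℝ) ≤ 64 := by
        calc (8 : ℝ) ^ (5 / 3 + 1 / 100 : ℝ) ≤ (8 : ℝ) ^ (2 : ℝ) :=
              Real.rpow_le_rpow_of_exponent_le (by norm_num) (by norm_num)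
          _ = 64 := by norm_num
      have j2 : T ^ (5 / 3 + 1 / 100 : ℝ) ≤ T ^ (168 / 100 : ℝ) :=
        Real.rpow_le_rpow_of_exponent_le hT1 (by norm_num)
      exact mul_le_mul j1 j2 (by positivity) (by norm_num)
    have i5 : ∫ t in (0 : ℝ)..(8 * T), F0 k T t ^ 2 ≤
        ∫ t in (0 : ℝ)..(8 * T), (32 * T ^ (1 / 5 : ℝ) * ‖riemannZeta (cl t)‖ ^ 8 +
          16 * (T ^ (1 / 5 : ℝ))⁻¹ * (‖a1 k T t‖ ^ 8 + ‖a2 k T t‖ ^ 8)) := by
      refine intervalIntegral.integral_mono_on (by linarith) ((cF.pow 2).intervalIntegrable _ _)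
        (Continuous.intervalIntegrable ?_ _ _) fun t _ => model_sq hlm _ _ _ (bF t)
      exact (continuous_const.mul (cz.norm.pow 8)).add
        (continuous_const.mul ((c1.norm.pow 8).add (c2.norm.pow 8)))
    have i6 : ∫ t in (0 : ℝ)..(8 * T), (32 * T ^ (1 / 5 : ℝ) * ‖riemannZeta (cl t)‖ ^ 8 +
          16 * (T ^ (1 / 5 : ℝ))⁻¹ * (‖a1 k T t‖ ^ 8 + ‖a2 k T t‖ ^ 8)) =
        32 * T ^ (1 / 5 : ℝ) * (∫ t in (0 : ℝ)..(8 * T), ‖riemannZeta (cl t)‖ ^ 8) +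
          16 * (T ^ (1 / 5 : ℝ))⁻¹ * ((∫ t in (0 : ℝ)..(8 * T), ‖a1 k T t‖ ^ 8) +
            ∫ t in (0 : ℝ)..(8 * T), ‖a2 k T t‖ ^ 8) := by
      rw [intervalIntegral.integral_add, intervalIntegral.integral_const_mul,
        intervalIntegral.integral_const_mul, intervalIntegral.integral_add]
      · exact (c1.norm.pow 8).intervalIntegrable _ _
      · exact (c2.norm.pow 8).intervalIntegrable _ _
      · exact (continuous_const.mul (cz.norm.pow 8)).intervalIntegrable _ _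
      · exact (continuous_const.mul ((c1.norm.pow 8).add (c2.norm.pow 8))).intervalIntegrable _ _
    rw [i6] at i5
    refine i5.trans ?_
    have s1 : 32 * T ^ (1 / 5 : ℝ) * (∫ t in (0 : ℝ)..(8 * T), ‖riemannZeta (cl t)‖ ^ 8) ≤
        T ^ (19 / 10 : ℝ) / 2 := by
      calc _ ≤ 32 * T ^ (1 / 5 : ℝ) * (C8 * (64 * T ^ (168 / 100 : ℝ))) :=
            mul_le_mul_of_nonneg_left i4 (by positivity)
        _ = 4096 * C8 * (T ^ (1 / 5 : ℝ) * T ^ (168 / 100 : ℝ)) / 2 := by ring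
        _ ≤ T ^ (2 / 100 : ℝ) * (T ^ (1 / 5 : ℝ) * T ^ (168 / 100 : ℝ)) / 2 := by gcongr
        _ = T ^ (19 / 10 : ℝ) / 2 := by
          rw [← Real.rpow_add hT0, ← Real.rpow_add hT0]
          norm_num
    have s2 : 16 * (T ^ (1 / 5 : ℝ))⁻¹ * ((∫ t in (0 : ℝ)..(8 * T), ‖a1 k T t‖ ^ 8) +
            ∫ t in (0 : ℝ)..(8 * T), ‖a2 k T t‖ ^ 8) ≤ T ^ (19 / 10 : ℝ) / 2 := by
      calc _ ≤ 16 * (T ^ (1 / 5 : ℝ))⁻¹ * (224 * C ^ 2 * T ^ (2054 / 1000 : ℝ) +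
              224 * C ^ 2 * T ^ (2054 / 1000 : ℝ)) :=
            mul_le_mul_of_nonneg_left (add_le_add i1 i2) (by positivity)
        _ = 14336 * C ^ 2 * (T ^ (-(1 / 5) : ℝ) * T ^ (2054 / 1000 : ℝ)) / 2 := by
            rw [Real.rpow_neg hT0.le]
            ring
        _ ≤ T ^ (2 / 100 : ℝ) * (T ^ (-(1 / 5) : ℝ) * T ^ (2054 / 1000 : ℝ)) / 2 := by gcongr
        _ = T ^ (2 / 100 + (-(1 / 5) + 2054 / 1000) : ℝ) / 2 := by
            rw [← Real.rpow_add hT0, ← Real.rpow_add hT0]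
        _ ≤ T ^ (19 / 10 : ℝ) / 2 := by
            have := Real.rpow_le_rpow_of_exponent_le hT1
              (by norm_num : (2 / 100 + (-(1 / 5) + 2054 / 1000) : ℝ) ≤ 19 / 10)
            linarith
    linarith
  · -- pointwise
    intro t ht
    have hz := zeta_bd t ht
    have k1 : ‖a1 k T t‖ ^ 2 ≤ 4 * T := by
      rw [ha1]
      have := pow_le_pow_left₀ (norm_nonneg _) (DS_sup p0 p1 M1 t) 2
      rw [mul_pow, Real.sq_sqrt (Nat.cast_nonneg _)] at this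
      have h3 : T ^ (51 / 100 : ℝ) ≤ T := by
        calc T ^ (51 / 100 : ℝ) ≤ T ^ (1 : ℝ) :=
              Real.rpow_le_rpow_of_exponent_le hT1 (by norm_num)
          _ = T := Real.rpow_one T
      linarith
    have k2 : ‖a2 k T t‖ ^ 2 ≤ 4 * T := by
      rw [ha2]
      have := pow_le_pow_left₀ (norm_nonneg _) (DS_sup q0 q1 M2 t) 2
      rw [mul_pow, Real.sq_sqrt (Nat.cast_nonneg _)] at this
      have h3 : T ^ (51 / 100 : ℝ) ≤ T := by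
        calc T ^ (51 / 100 : ℝ) ≤ T ^ (1 : ℝ) :=
              Real.rpow_le_rpow_of_exponent_le hT1 (by norm_num)
          _ = T := Real.rpow_one T
      linarith
    refine (bF t).trans ?_
    have k3 : ‖riemannZeta (cl t)‖ ^ 2 ≤ 576 * (1 + t) ^ 4 := by
      have := pow_le_pow_left₀ (norm_nonneg _) hz 2
      refine this.trans (le_of_eq ?_)
      ring
    have k4 : 0 ≤ (1 + t) ^ 4 := by positivity
    calc 4 * ‖riemannZeta (cl t)‖ ^ 2 * (‖a1 k T t‖ ^ 2 + ‖a2 k T t‖ ^ 2)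
        ≤ 4 * (576 * (1 + t) ^ 4) * (4 * T + 4 * T) := by gcongr
      _ = 18432 * T * (1 + t) ^ 4 := by ring
      _ ≤ T * T * (1 + t) ^ 4 := by gcongr
      _ ≤ T ^ 3 * (1 + t) ^ 4 := by
        refine mul_le_mul_of_nonneg_right ?_ k4
        calc T * T = T * T * 1 := by ring
          _ ≤ T * T * T := by gcongr
          _ = T ^ 3 := by ring

end Pool.Agent.Y429.SX
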